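import Mathlib
import Pool.Agent.H.MP_e6b6d5_an.B

namespace Pool.Agent.Results.MP_e6b6d5_an.No

open Set Function

def orbCl {X : Type} [TopologicalSpace X] (T : X → X) (x : X) : Set X :=
  closure (range fun n : ℕ => T^[n] x)

def IsMinimalOn {X : Type} [TopologicalSpace X] (T : X → X) (K : Set X) : Prop :=
  ∀ F ⊆ K, F.Nonempty → IsClosed F → MapsTo T F F → F = K

theorem result : ∃ (X : Type) (_ : MetricSpace X) (_ : CompactSpace X) (T : X → X),
    Nonempty X ∧ Continuous T ∧ Surjective T ∧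
    (∀ (Y : Type) [MetricSpace Y] [CompactSpace Y] (S : Y → Y), Continuous S → Surjective S →
      IsMinimalOn S univ → ∀ J : Set (X × Y), J.Nonempty → IsClosed J →
        MapsTo (Prod.map T S) J J → Prod.fst '' J = univ → Prod.snd '' J = univ → J = univ) ∧
    ¬ ∃ Ω : Set X, IsGδ Ω ∧ Dense Ω ∧
      ∀ x ∈ Ω, orbCl T x ⊆ closure {u ∈ orbCl T x | IsMinimalOn T (orbCl T u)} :=
  Pool.Agent.H.MP_e6b6d5_an.main

end Pool.Agent.Results.MP_e6b6d5_an.No
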